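import Mathlib
import Pool.Agent.T6.H90.Upward.Defs

set_option autoImplicit false

/-!
# Straight-line upward drawings of bipartite DAGs of polynomial area: definitions
-/

namespace Pool.Agent.T6.H42.UP

open Pool.Agent.T6.H90.Upward

/-- noncrossing labelling of the positions `0, ..., N - 1` of a line -/
def NC (N : ℕ) (s : ℕ → ℕ) : Prop :=
  ∀ a b c d : ℕ, a < b → b < c → c < d → d < N → s a = s c → s b = s d → s a = s b

/-- A line structure: the positions are the edges of a bipartite graph, `s k` is the source and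
`t k` the sink of the edge `k`; both labellings are noncrossing and there are no double edges. -/
structure LS (N : ℕ) (s t : ℕ → ℕ) : Prop where
  ncs : NC N s
  nct : NC N t
  inj : ∀ a b : ℕ, a < N → b < N → s a = s b → t a = t b → a = b

/-- insertion of a new position `g` with the label `x` -/
def ins (g x : ℕ) (s : ℕ → ℕ) : ℕ → ℕ :=
  fun k => if k < g then s k else if k = g then x else s (k - 1)

/-- a line structure to which no edge between old vertices can be added -/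
def MaxLS (N : ℕ) (s t : ℕ → ℕ) : Prop :=
  LS N s t ∧ ∀ g x y : ℕ, g ≤ N → x < N → y < N → NC (N + 1) (ins g (s x) s) →
    NC (N + 1) (ins g (t y) t) → ∃ k < N, s k = s x ∧ t k = t y

/-- the cyclic successor of a position -/
def cs (N k : ℕ) : ℕ := if k + 1 < N then k + 1 else 0

/-- `b` is strictly between `a` and `c` in the cyclic order -/
def btw (a b c : ℕ) : Prop := (a < b ∧ b < c) ∨ (b < c ∧ c < a) ∨ (c < a ∧ a < b)

/-- `q` is the next position after `p` in the cyclic order with the same label -/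
def Nxt (N : ℕ) (s : ℕ → ℕ) (p q : ℕ) : Prop :=
  q < N ∧ s q = s p ∧ ∀ r < N, s r = s p → r = p ∨ r = q ∨ btw q r p

/-- A quadrangulated line structure. -/
structure Full (N : ℕ) (s t ns nt μ : ℕ → ℕ) : Prop where
  ls : LS N s t
  nxs : ∀ p < N, Nxt N s p (ns p)
  nxt : ∀ p < N, Nxt N t p (nt p)
  nes : ∀ p < N, ns p ≠ p
  net : ∀ p < N, nt p ≠ p
  adj : ∀ p < N, cs N p = ns p ∨ cs N p = nt p
  mlt : ∀ p < N, μ p < N
  mm : ∀ p < N, μ (μ p) = p
  nm : ∀ p < N, nt (μ p) = ns p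
  mn : ∀ p < N, ns (μ p) = nt p

/-- adjacency of two sources in the graph `M` whose faces are the sinks -/
def MAdj (N : ℕ) (s μ : ℕ → ℕ) (a b : ℕ) : Prop := ∃ r < N, s r = a ∧ s (μ r) = b

/-- A quadrangulation of the sphere, given by its edges `p < N` (source `s p`, sink `t p`), the next
edge `ns p` at the source, the next edge `nt p` at the sink, and the opposite edge `μ p` in the
quadrangle after `p`; `exact` says that all circulations come from potentials on the sinks. -/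
structure QS (N : ℕ) (s t ns nt μ : ℕ → ℕ) : Prop where
  pos : 0 < N
  nsl : ∀ p < N, ns p < N
  ntl : ∀ p < N, nt p < N
  mlt : ∀ p < N, μ p < N
  sns : ∀ p < N, s (ns p) = s p
  tnt : ∀ p < N, t (nt p) = t p
  nes : ∀ p < N, ns p ≠ p
  net : ∀ p < N, nt p ≠ p
  mm : ∀ p < N, μ (μ p) = p
  nm : ∀ p < N, nt (μ p) = ns p
  mn : ∀ p < N, ns (μ p) = nt p
  orbs : ∀ p < N, ∀ q < N, s p = s q → ∃ k : ℕ, ns^[k] p = q
  orbt : ∀ p < N, ∀ q < N, t p = t q → ∃ k : ℕ, nt^[k] p = q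
  inj : ∀ a b : ℕ, a < N → b < N → s a = s b → t a = t b → a = b
  conn : ∀ p < N, ∀ q < N, Relation.ReflTransGen (MAdj N s μ) (s p) (s q)
  exact : ∀ Φ : ℕ → ℚ, (∀ p < N, Φ (μ p) = - Φ p) →
    (∀ u : ℕ, ∑ p ∈ (Finset.range N).filter (fun p => s p = u), Φ p = 0) →
    ∃ J : ℕ → ℚ, ∀ p < N, J (t (ns p)) - J (t p) = Φ p

/-- an `st`-numbering of the sources with the poles `s e` and `s (μ e)` -/
structure STN (N : ℕ) (s μ : ℕ → ℕ) (e : ℕ) (i : ℕ → ℕ) : Prop where
  inj : ∀ p < N, ∀ q < N, i (s p) = i (s q) → s p = s q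
  poles : i (s e) < i (s (μ e))
  lo : ∀ p < N, s p ≠ s e → i (s e) < i (s p)
  hi : ∀ p < N, s p ≠ s (μ e) → i (s p) < i (s (μ e))
  below : ∀ p < N, s p ≠ s e → s p ≠ s (μ e) → ∃ r < N, s r = s p ∧ i (s (μ r)) < i (s p)
  above : ∀ p < N, s p ≠ s e → s p ≠ s (μ e) → ∃ r < N, s r = s p ∧ i (s p) < i (s (μ r))

/-- numberings `i` of the sources (heights) and `j` of the sinks (abscissae) of a bipolar
orientation -/
structure Signs (N : ℕ) (s t μ : ℕ → ℕ) (e : ℕ) (i j : ℕ → ℕ) : Prop where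
  iinj : ∀ p < N, ∀ q < N, i (s p) = i (s q) → s p = s q
  jinj : ∀ p < N, ∀ q < N, j (t p) = j (t q) → t p = t q
  lo : ∀ p < N, s p ≠ s e → i (s e) < i (s p)
  hi : ∀ p < N, s p ≠ s (μ e) → i (s p) < i (s (μ e))
  pole : i (s e) < i (s (μ e)) ∧ j (t (μ e)) < j (t e)
  sgn : ∀ p < N, p ≠ e → p ≠ μ e → (i (s p) < i (s (μ p)) ↔ j (t p) < j (t (μ p)))

/-- the contact structure used for the drawing: sources `0, ..., a - 1` (heights), sinks
`0, ..., b - 1` (abscissae), incidence `R`, lowest and highest source of a sink, leftmost sink of a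
source -/
structure BP (a b : ℕ) (R : ℕ → ℕ → Prop) (bot top lam : ℕ → ℕ) : Prop where
  lt : ∀ v f, R v f → v < a ∧ f < b
  botR : ∀ f < b, R (bot f) f
  topR : ∀ f < b, R (top f) f
  bt : ∀ f < b, bot f < top f
  botle : ∀ v f, R v f → bot f ≤ v
  letop : ∀ v f, R v f → v ≤ top f
  lamR : ∀ v < a, R v (lam v)
  lamle : ∀ v f, R v f → lam v ≤ f
  proper : ∀ v, 0 < v → v + 1 < a → bot (lam v) < v ∧ v < top (lam v)
  cross : ∀ v f g, R v g → lam v < f → f < g → f < b → bot f < v → v < top f → False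

/-- A straight-line drawing with real coordinates and different heights of all vertices. -/
structure RD (n : ℕ) (E : ℕ → ℕ → Prop) (X Y : ℕ → ℝ) : Prop where
  lt : ∀ u v, E u v → u < n ∧ v < n ∧ Y u < Y v
  bip : ∀ u v w, E u v → ¬ E v w
  yinj : ∀ u < n, ∀ v < n, Y u = Y v → u = v
  off : ∀ u v w, E u v → w < n → Y u < Y w → Y w < Y v →
    X w ≠ X u + (Y w - Y u) / (Y v - Y u) * (X v - X u)
  nocross : ∀ u v u' v' h, E u v → E u' v' → (u, v) ≠ (u', v') → Y u < h → h < Y v → Y u' < h →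
    h < Y v' →
    X u + (h - Y u) / (Y v - Y u) * (X v - X u) ≠ X u' + (h - Y u') / (Y v' - Y u') * (X v' - X u')

/-- the result of the drawing algorithm: positions `P` of the sources and `Q` of the sinks -/
structure Drawn (a b : ℕ) (R : ℕ → ℕ → Prop) (P Q : ℕ → ℤ × ℤ) (W H : ℤ) : Prop where
  boxP : ∀ v < a, -W ≤ (P v).1 ∧ (P v).1 ≤ 0 ∧ 0 ≤ (P v).2 ∧ (P v).2 ≤ H
  boxQ : ∀ f < b, -W ≤ (Q f).1 ∧ (Q f).1 ≤ 0 ∧ 0 ≤ (Q f).2 ∧ (Q f).2 ≤ H
  injP : ∀ v < a, ∀ w < a, P v = P w → v = w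
  injQ : ∀ f < b, ∀ g < b, Q f = Q g → f = g
  ne : ∀ v < a, ∀ f < b, P v ≠ Q f
  up : ∀ v f, R v f → (P v).2 < (Q f).2
  planar : ∀ v f w g, R v f → R w g → (v, f) ≠ (w, g) →
    ∀ z ∈ segment ℝ (toPlane (P v)) (toPlane (Q f)), z ∈ segment ℝ (toPlane (P w)) (toPlane (Q g)) →
      (v = w ∧ z = toPlane (P v)) ∨ (f = g ∧ z = toPlane (Q f))

/-- the horizontal unit of the drawing -/
def kk (a b : ℕ) : ℤ := 8 * ((a : ℤ) + b + 1)

/-- the slope of the sink `f` -/
def sg (a b f : ℕ) : ℤ := 4 * ((a : ℤ) + b + 1) + 2 * f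

/-- abscissa of the source `v` -/
def xs (a b v : ℕ) : ℤ := - (kk a b * v)

/-- the recursion for the ordinates `y v` of the sources -/
structure Coord (a b : ℕ) (bot lam : ℕ → ℕ) (y : ℕ → ℤ) : Prop where
  zero : y 0 = 0
  last : y (a - 1) = (sg a b 0 - 1) * (kk a b * ((a - 1 : ℕ) : ℤ))
  step : ∀ v, 0 < v → v + 1 < a →
    y v = y (bot (lam v)) + (sg a b (lam v) + 1) * (kk a b * ((v : ℤ) - (bot (lam v) : ℤ)))

/-- abscissa of the sink `f` -/
def xq (a b : ℕ) (top : ℕ → ℕ) (f : ℕ) : ℤ := - (kk a b * (top f : ℤ)) + 1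

/-- ordinate of the sink `f` -/
def yq (a b : ℕ) (bot top : ℕ → ℕ) (y : ℕ → ℤ) (f : ℕ) : ℤ :=
  y (bot f) + sg a b f * (kk a b * ((top f : ℤ) - (bot f : ℤ)) - 1)

/-- the point with parameter `θ` of the edge from the source `w` to the sink `g`: abscissa -/
noncomputable def px (a b : ℕ) (top : ℕ → ℕ) (w g : ℕ) (θ : ℝ) : ℝ :=
  (1 - θ) * (xs a b w : ℝ) + θ * (xq a b top g : ℝ)

/-- the point with parameter `θ` of the edge from the source `w` to the sink `g`: ordinate -/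
noncomputable def py (a b : ℕ) (bot top : ℕ → ℕ) (y : ℕ → ℤ) (w g : ℕ) (θ : ℝ) : ℝ :=
  (1 - θ) * (y w : ℝ) + θ * (yq a b bot top y g : ℝ)

/-- the sources on the contour just before the sink `f` is drawn -/
def Con (a : ℕ) (R : ℕ → ℕ → Prop) (lam : ℕ → ℕ) (f q : ℕ) : Prop :=
  q = 0 ∨ q + 1 = a ∨ (q < a ∧ lam q < f ∧ ∃ g, R q g ∧ f ≤ g)

end Pool.Agent.T6.H42.UP
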