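import Mathlib
import Pool.Agent.T6.H42.UP.Defs

set_option autoImplicit false

/-!
# Straight-line upward drawings of bipartite DAGs of polynomial area: statements of the modules
-/

namespace Pool.Agent.T6.H42.UP

open Pool.Agent.T6.H90.Upward

/-! ## A. Line structures -/

/-- criterion for the insertion of a label -/
def StmtIns : Prop := ∀ (N g x : ℕ) (s : ℕ → ℕ), NC N s → g ≤ N →
  (∀ a b c : ℕ, a < c → c < N → b < N → s a = s c → s b = x →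
    ((a < g ∧ g ≤ c) ↔ ¬ (a < b ∧ b < c)) → s a = x) → NC (N + 1) (ins g x s)

/-- insertion next to a position with the same label -/
def StmtAdj : Prop := ∀ (N : ℕ) (s : ℕ → ℕ), NC N s → ∀ k < N,
  NC (N + 1) (ins (k + 1) (s k) s) ∧ NC (N + 1) (ins (k + 1) (s (cs N k)) s)

/-- every line structure is contained in a maximal one with the same labels -/
def StmtMaxExt : Prop := ∀ (N : ℕ) (s t : ℕ → ℕ), LS N s t → ∃ (N' : ℕ) (s' t' : ℕ → ℕ),
  MaxLS N' s' t' ∧ (∀ k < N, ∃ k' < N', s' k' = s k ∧ t' k' = t k) ∧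
  ∀ k' < N', (∃ k < N, s' k' = s k) ∧ ∃ k < N, t' k' = t k

/-- existence and uniqueness of the next and of the previous position with the same label -/
def StmtNxt : Prop := ∀ (N : ℕ) (s : ℕ → ℕ), (∀ p < N, ∃! q, Nxt N s p q) ∧
  ∀ q < N, ∃! p, p < N ∧ Nxt N s p q

/-- the iterates of the next-map exhaust the class -/
def StmtOrb : Prop := ∀ (N : ℕ) (s ns : ℕ → ℕ), (∀ p < N, Nxt N s p (ns p)) →
  ∀ p < N, ∀ q < N, s p = s q → ∃ k : ℕ, ns^[k] p = q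

/-- in a maximal line structure consecutive edges have a common end -/
def StmtNoC : Prop := ∀ (N : ℕ) (s t : ℕ → ℕ), MaxLS N s t → ∀ k < N,
  s k = s (cs N k) ∨ t k = t (cs N k)

/-- insertion across a region -/
def StmtReg : Prop := ∀ (N : ℕ) (s : ℕ → ℕ), NC N s → ∀ g < N, ∀ h < N, Nxt N s h (cs N g) →
  NC (N + 1) (ins (h + 1) (s g) s) ∧ NC (N + 1) (ins (g + 1) (s (cs N h)) s)

/-- the regions of a maximal line structure have at most two gaps -/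
def StmtHalf : Prop := ∀ (N : ℕ) (s t : ℕ → ℕ), MaxLS N s t →
  (∃ p < N, ∃ q < N, t p ≠ t q) → ∀ g < N, ∀ h < N, s g ≠ s (cs N g) → Nxt N s h (cs N g) →
  t h ≠ t g ∧ s (cs N h) = s g ∧ s h ≠ s (cs N h) ∧ Nxt N s g (cs N h)

/-- a maximal line structure is a quadrangulation -/
def StmtMaxFull : Prop := ∀ (N : ℕ) (s t : ℕ → ℕ), MaxLS N s t →
  (∃ p < N, ∃ q < N, s p ≠ s q) → (∃ p < N, ∃ q < N, t p ≠ t q) →
  ∃ ns nt μ : ℕ → ℕ, Full N s t ns nt μ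

/-- exactness: circulations come from potentials -/
def StmtExact : Prop := ∀ (N : ℕ) (s t ns nt μ : ℕ → ℕ), Full N s t ns nt μ →
  ∀ Φ : ℕ → ℚ, (∀ p < N, Φ (μ p) = - Φ p) →
    (∀ u : ℕ, ∑ p ∈ (Finset.range N).filter (fun p => s p = u), Φ p = 0) →
    ∃ J : ℕ → ℚ, ∀ p < N, J (t (ns p)) - J (t p) = Φ p

/-- a quadrangulated line structure is a quadrangulation -/
def StmtQS : Prop := ∀ (N : ℕ) (s t ns nt μ : ℕ → ℕ), 0 < N → Full N s t ns nt μ →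
  QS N s t ns nt μ

/-! ## B. Quadrangulations -/

/-- the graph `M` has no cut vertex -/
def StmtTwo : Prop := ∀ (N : ℕ) (s t ns nt μ : ℕ → ℕ), QS N s t ns nt μ →
  ∀ v : ℕ, ∀ p < N, ∀ q < N, s p ≠ v → s q ≠ v →
    Relation.ReflTransGen (fun a b => MAdj N s μ a b ∧ a ≠ v ∧ b ≠ v) (s p) (s q)

/-- `st`-numberings exist -/
def StmtST : Prop := ∀ (V : Finset ℕ) (A : ℕ → ℕ → Prop), (∀ a b, A a b → A b a) →
  (∀ a b, A a b → a ∈ V ∧ b ∈ V) →
  (∀ v, ∀ a ∈ V, ∀ b ∈ V, a ≠ v → b ≠ v →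
    Relation.ReflTransGen (fun c d => A c d ∧ c ≠ v ∧ d ≠ v) a b) →
  ∀ x ∈ V, ∀ y ∈ V, x ≠ y → ∃ i : ℕ → ℕ, Set.InjOn i V ∧ i x < i y ∧
    ∀ v ∈ V, v ≠ x → v ≠ y → i x < i v ∧ i v < i y ∧ (∃ w, A v w ∧ i w < i v) ∧
      ∃ w, A v w ∧ i v < i w

/-- `st`-numbering of the sources of a quadrangulation -/
def StmtSTN : Prop := ∀ (N : ℕ) (s t ns nt μ : ℕ → ℕ), QS N s t ns nt μ → ∀ e < N,
  ∃ i : ℕ → ℕ, STN N s μ e i

/-- a circulation which is positive on all upward edges except the edge of the poles -/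
def StmtCirc : Prop := ∀ (N : ℕ) (s t ns nt μ : ℕ → ℕ), QS N s t ns nt μ → ∀ e < N,
  ∀ i : ℕ → ℕ, STN N s μ e i → ∃ Φ : ℕ → ℚ, (∀ p < N, Φ (μ p) = - Φ p) ∧
    (∀ u : ℕ, ∑ p ∈ (Finset.range N).filter (fun p => s p = u), Φ p = 0) ∧
    (∀ p < N, p ≠ e → p ≠ μ e → i (s p) < i (s (μ p)) → 0 < Φ p) ∧ Φ e < 0

/-- heights and abscissae exist -/
def StmtSigns : Prop := ∀ (N : ℕ) (s t ns nt μ : ℕ → ℕ), QS N s t ns nt μ → ∀ e < N,
  ∃ i j : ℕ → ℕ, Signs N s t μ e i j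

/-- the rectangles of the edges of `M` do not overlap -/
def StmtTile : Prop := ∀ (N : ℕ) (s t ns nt μ : ℕ → ℕ) (e : ℕ) (i j : ℕ → ℕ),
  QS N s t ns nt μ → e < N → Signs N s t μ e i j → ∀ x y : ℚ,
  (∀ p < N, (i (s p) : ℚ) ≠ y ∧ (j (t p) : ℚ) ≠ x) →
  ∀ p < N, ∀ q < N, p ≠ e → p ≠ μ e → q ≠ e → q ≠ μ e →
  (i (s p) : ℚ) < y → y < i (s (μ p)) → (j (t p) : ℚ) < x → x < j (t (μ p)) →
  (i (s q) : ℚ) < y → y < i (s (μ q)) → (j (t q) : ℚ) < x → x < j (t (μ q)) → p = q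

/-- no crosses -/
def StmtCross : Prop := ∀ (N : ℕ) (s t ns nt μ : ℕ → ℕ) (e : ℕ) (i j : ℕ → ℕ),
  QS N s t ns nt μ → e < N → Signs N s t μ e i j →
  ∀ p₁ < N, ∀ p₂ < N, ∀ q₁ < N, ∀ q₂ < N, s p₁ = s p₂ → t q₁ = t q₂ →
  j (t p₁) < j (t q₁) → j (t q₁) < j (t p₂) → i (s q₁) < i (s p₁) → i (s p₁) < i (s q₂) → False

/-- a source which is not a pole is inside of its leftmost sink -/
def StmtProper : Prop := ∀ (N : ℕ) (s t ns nt μ : ℕ → ℕ) (e : ℕ) (i j : ℕ → ℕ),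
  QS N s t ns nt μ → e < N → Signs N s t μ e i j →
  ∀ p < N, s p ≠ s e → s p ≠ s (μ e) → (∀ r < N, s r = s p → j (t p) ≤ j (t r)) →
    (∃ q < N, t q = t p ∧ i (s q) < i (s p)) ∧ ∃ q < N, t q = t p ∧ i (s p) < i (s q)

/-- the contact structure of a quadrangulation -/
def StmtBP : Prop := ∀ (N : ℕ) (s t ns nt μ : ℕ → ℕ), QS N s t ns nt μ →
  ∃ (a b : ℕ) (R : ℕ → ℕ → Prop) (bot top lam i j : ℕ → ℕ), BP a b R bot top lam ∧ 0 < b ∧
    a ≤ ((Finset.range N).image s).card ∧ b ≤ ((Finset.range N).image t).card ∧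
    (∀ p < N, R (i (s p)) (j (t p))) ∧ (∀ p < N, ∀ q < N, i (s p) = i (s q) → s p = s q) ∧
    ∀ p < N, ∀ q < N, j (t p) = j (t q) → t p = t q

/-- the contact structure of a line structure -/
def StmtStruct : Prop := ∀ (N : ℕ) (s t : ℕ → ℕ), LS N s t →
  (∃ p < N, ∃ q < N, s p ≠ s q) → (∃ p < N, ∃ q < N, t p ≠ t q) →
  ∃ (a b : ℕ) (R : ℕ → ℕ → Prop) (bot top lam i j : ℕ → ℕ), BP a b R bot top lam ∧ 0 < b ∧
    a ≤ ((Finset.range N).image s).card ∧ b ≤ ((Finset.range N).image t).card ∧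
    (∀ p < N, R (i (s p)) (j (t p))) ∧ (∀ p < N, ∀ q < N, i (s p) = i (s q) → s p = s q) ∧
    ∀ p < N, ∀ q < N, j (t p) = j (t q) → t p = t q

/-! ## C. The drawing -/

/-- existence and bounds of the ordinates -/
def StmtCoord : Prop := ∀ (a b : ℕ) (R : ℕ → ℕ → Prop) (bot top lam : ℕ → ℕ),
  BP a b R bot top lam → 0 < b → ∃ y : ℕ → ℤ, Coord a b bot lam y ∧
    (∀ v < a, 0 ≤ y v ∧ y v ≤ 6 * ((a : ℤ) + b + 1) * (kk a b * v)) ∧
    ∀ f < b, 0 ≤ yq a b bot top y f ∧ yq a b bot top y f ≤ 56 * ((a : ℤ) + b + 1) ^ 3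

/-- sources of the contour between the lowest and the highest source of the sink `f` are ends of
`f`, and the lowest and the highest source are on the contour -/
def StmtCon : Prop := ∀ (a b : ℕ) (R : ℕ → ℕ → Prop) (bot top lam : ℕ → ℕ),
  BP a b R bot top lam → ∀ f < b, Con a R lam f (bot f) ∧ Con a R lam f (top f) ∧
    (∀ q, Con a R lam f q → bot f < q → q < top f → R q f ∧ ∀ g, R q g → g ≤ f) ∧
    ∀ v, R v f → Con a R lam f v ∨ (lam v = f ∧ bot f < v ∧ v < top f)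

/-- the main inequality: the edges drawn before `f` are below the line of slope `sg f - 1` to the
left of each source of the contour -/
def Slope (a b : ℕ) (R : ℕ → ℕ → Prop) (bot top lam : ℕ → ℕ) (y : ℕ → ℤ) (f : ℕ) : Prop :=
  ∀ q, Con a R lam f q →
    ((y (a - 1) : ℝ) ≤ y q + ((sg a b f : ℝ) - 1) * ((xs a b q : ℝ) - xs a b (a - 1))) ∧
    ∀ w g, R w g → g < f → ∀ θ : ℝ, 0 ≤ θ → θ ≤ 1 → px a b top w g θ ≤ xs a b q →
      py a b bot top y w g θ ≤ y q + ((sg a b f : ℝ) - 1) * ((xs a b q : ℝ) - px a b top w g θ) ∧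
      (px a b top w g θ = xs a b q → w ≠ q → py a b bot top y w g θ < y q)

/-- heights of the contour sources -/
def StmtConSlope : Prop := ∀ (a b : ℕ) (R : ℕ → ℕ → Prop) (bot top lam : ℕ → ℕ) (y : ℕ → ℤ),
  BP a b R bot top lam → Coord a b bot lam y → ∀ f < b, Slope a b R bot top lam y f →
  ∀ p q, Con a R lam f p → Con a R lam f q → q < p →
    y p ≤ y q + (sg a b f - 1) * (kk a b * ((p : ℤ) - (q : ℤ)))

/-- the edges of `f` are below the line of slope `sg f + 1` through the lowest source of `f`,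
strictly except at this source and at the new sources; to the left of a new source `z` they are
below `z` -/
def StmtNewUpper : Prop := ∀ (a b : ℕ) (R : ℕ → ℕ → Prop) (bot top lam : ℕ → ℕ) (y : ℕ → ℤ),
  BP a b R bot top lam → Coord a b bot lam y → ∀ f < b, Slope a b R bot top lam y f →
  ∀ v, R v f → ∀ θ : ℝ, 0 ≤ θ → θ ≤ 1 →
    py a b bot top y v f θ ≤
      y (bot f) + ((sg a b f : ℝ) + 1) * ((xs a b (bot f) : ℝ) - px a b top v f θ) ∧
    (0 < θ → py a b bot top y v f θ <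
      y (bot f) + ((sg a b f : ℝ) + 1) * ((xs a b (bot f) : ℝ) - px a b top v f θ)) ∧
    (v ≠ bot f → lam v ≠ f → py a b bot top y v f θ <
      y (bot f) + ((sg a b f : ℝ) + 1) * ((xs a b (bot f) : ℝ) - px a b top v f θ))

/-- the main inequality holds for all `f` -/
def StmtSlope : Prop := ∀ (a b : ℕ) (R : ℕ → ℕ → Prop) (bot top lam : ℕ → ℕ) (y : ℕ → ℤ),
  BP a b R bot top lam → Coord a b bot lam y → ∀ f < b, Slope a b R bot top lam y f

/-- edges of different sinks do not meet except at common sources -/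
def StmtSep : Prop := ∀ (a b : ℕ) (R : ℕ → ℕ → Prop) (bot top lam : ℕ → ℕ) (y : ℕ → ℤ),
  BP a b R bot top lam → Coord a b bot lam y → ∀ v f w g, R v f → R w g → g < f →
  ∀ θ θ' : ℝ, 0 ≤ θ → θ ≤ 1 → 0 ≤ θ' → θ' ≤ 1 → px a b top v f θ = px a b top w g θ' →
    py a b bot top y w g θ' < py a b bot top y v f θ ∨ (v = w ∧ θ = 0 ∧ θ' = 0)

/-- edges of the same sink only meet at the sink; the edges are upward -/
def StmtSame : Prop := ∀ (a b : ℕ) (R : ℕ → ℕ → Prop) (bot top lam : ℕ → ℕ) (y : ℕ → ℤ),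
  BP a b R bot top lam → Coord a b bot lam y → ∀ v w f, R v f → R w f →
  y v < yq a b bot top y f ∧ (v ≠ w → ∀ θ θ' : ℝ, 0 ≤ θ → θ ≤ 1 → 0 ≤ θ' → θ' ≤ 1 →
    px a b top v f θ = px a b top w f θ' → py a b bot top y v f θ = py a b bot top y w f θ' →
    θ = 1 ∧ θ' = 1)

/-- the drawing -/
def StmtDraw : Prop := ∀ (a b : ℕ) (R : ℕ → ℕ → Prop) (bot top lam : ℕ → ℕ),
  BP a b R bot top lam → 0 < b → ∃ P Q : ℕ → ℤ × ℤ,
    Drawn a b R P Q (8 * ((a : ℤ) + b + 1) ^ 2) (56 * ((a : ℤ) + b + 1) ^ 3)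

/-! ## D. From a drawing to a line structure -/

/-- generic real coordinates -/
def StmtShear : Prop := ∀ (n : ℕ) (E : Fin n → Fin n → Prop), IsBipartiteDAG E →
  (∃ D : Drawing E, D.Straight) → ∃ X Y : ℕ → ℝ,
    RD n (fun u v => ∃ (hu : u < n) (hv : v < n), E ⟨u, hu⟩ ⟨v, hv⟩) X Y

/-- the sweep -/
def StmtSweep : Prop := ∀ (n : ℕ) (E : ℕ → ℕ → Prop) (X Y : ℕ → ℝ), RD n E X Y →
  ∃ (N : ℕ) (s t : ℕ → ℕ), LS N s t ∧ ∀ u v, E u v ↔ ∃ k < N, s k = u ∧ t k = v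

/-! ## E. The result -/

/-- the theorem -/
def StmtMain : Prop := ∀ n : ℕ, 1 ≤ n → straightArea n ≤ 10 ^ 6 * (n : ℝ) ^ 5

end Pool.Agent.T6.H42.UP
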